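import Pool.Agent.Q274.DC.Stm

set_option autoImplicit false

namespace Pool.Agent.Q109.DC

open Pool.Agent.Q274.DC Finset

theorem chi : S_CHI := by
  classical
  intro F _ _ hF
  have hcard : 2 ≤ Fintype.card F := Fintype.one_lt_card
  obtain ⟨m, hm⟩ : ∃ m, Fintype.card F - 1 = 3 * m := ⟨(Fintype.card F - 1) / 3, by omega⟩
  have hm0 : 0 < m := by omega
  obtain ⟨χ, hχ⟩ := MulChar.exists_mulChar_orderOf F (n := 3) ⟨m, hm⟩
    (Complex.isPrimitiveRoot_exp 3 (by norm_num))
  have hχ1 : χ ≠ 1 := by
    rintro rfl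
    rw [orderOf_one] at hχ
    norm_num at hχ
  have hχ3 : χ ^ 3 = 1 := by
    rw [← hχ]
    exact pow_orderOf_eq_one χ
  have hcube : ∀ v : F, v ≠ 0 → χ v ^ 3 = 1 := by
    intro v hv
    rw [← MulChar.pow_apply' χ (by norm_num), hχ3, MulChar.one_apply (isUnit_iff_ne_zero.2 hv)]
  obtain ⟨g, hg⟩ := IsCyclic.exists_generator (α := Fˣ)
  have hgord : orderOf g = 3 * m := by
    rw [orderOf_eq_card_of_forall_mem_zpowers hg, Nat.card_eq_fintype_card, Fintype.card_units, hm]
  have hprim : IsPrimitiveRoot ((g ^ m : Fˣ) : F) 3 := by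
    rw [IsPrimitiveRoot.coe_units_iff]
    exact (IsPrimitiveRoot.orderOf g).pow (by rw [hgord]; omega) (by rw [hgord]; ring)
  have hgne : χ (g : F) ≠ 1 := by
    intro h
    apply hχ1
    ext a
    obtain ⟨k, hk⟩ := Subgroup.mem_zpowers_iff.1 (hg a)
    have h1 : χ (a : F) = 1 := by
      have h2 : (χ.toUnitHom a : ℂ) = 1 := by
        rw [← hk, map_zpow]
        have h3 : χ.toUnitHom g = 1 := by
          ext
          rw [MulChar.coe_toUnitHom, h]
          rfl
        rw [h3, one_zpow]
        rfl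
      rwa [MulChar.coe_toUnitHom] at h2
    rw [h1, MulChar.one_apply_coe]
  refine ⟨χ, hχ1, hχ3, fun u => ?_⟩
  by_cases hu : u = 0
  · subst hu
    have h1 : Nat.card {x : F // x ^ 3 = 0} = 1 := by
      rw [Nat.card_eq_one_iff_unique]
      refine ⟨⟨fun x y => ?_⟩, ⟨⟨0, by norm_num⟩⟩⟩
      have hx := pow_eq_zero_iff (by norm_num : (3 : ℕ) ≠ 0) |>.1 x.2
      have hy := pow_eq_zero_iff (by norm_num : (3 : ℕ) ≠ 0) |>.1 y.2
      exact Subtype.ext (hx.trans hy.symm)
    rw [h1, MulChar.map_zero]
    norm_num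
  · have hc : Nat.card {x : F // x ^ 3 = u} = Multiset.card (Polynomial.nthRoots 3 u) := by
      rw [← Multiset.toFinset_card_of_nodup (hprim.nthRoots_nodup hu),
        Nat.card_eq_fintype_card, Fintype.card_subtype]
      congr 1
      ext x
      rw [Finset.mem_filter, Multiset.mem_toFinset, Polynomial.mem_nthRoots (by norm_num)]
      simp
    rw [hc, hprim.card_nthRoots u]
    split_ifs with h
    · obtain ⟨v, hv⟩ := h
      have hv0 : v ≠ 0 := by
        rintro rfl
        apply hu
        rw [← hv]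
        norm_num
      have h1 : χ u = 1 := by rw [← hv, map_pow, hcube v hv0]
      rw [h1]
      norm_num
    · have hne : χ u ≠ 1 := by
        intro h1
        obtain ⟨k, hk⟩ := Subgroup.mem_zpowers_iff.1 (hg (Units.mk0 u hu))
        have hk' : u = ((g ^ k : Fˣ) : F) := by rw [hk]; rfl
        have h3 : ∀ j : ℤ, χ ((g ^ j : Fˣ) : F) = χ (g : F) ^ j := by
          intro j
          rw [← MulChar.coe_toUnitHom, map_zpow, Units.val_zpow_eq_zpow_val, MulChar.coe_toUnitHom]
        have hz3 : χ (g : F) ^ 3 = 1 := hcube _ g.ne_zero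
        have hz0 : χ (g : F) ≠ 0 := by
          intro h0
          rw [h0] at hz3
          norm_num at hz3
        have hmod : k % 3 = 0 ∨ k % 3 = 1 ∨ k % 3 = 2 := by omega
        have hkd : k = 3 * (k / 3) + k % 3 := by omega
        have hpow : χ (g : F) ^ k = χ (g : F) ^ (k % 3) := by
          conv_lhs => rw [hkd]
          rw [zpow_add₀ hz0, zpow_mul]
          have : χ (g : F) ^ (3 : ℤ) = 1 := by exact_mod_cast hz3
          rw [this, one_zpow, one_mul]
        rw [hk', h3, hpow] at h1
        rcases hmod with h0 | h0 | h0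
        · apply h
          refine ⟨((g ^ (k / 3) : Fˣ) : F), ?_⟩
          rw [hk', ← Units.val_pow_eq_pow_val, ← zpow_natCast, ← zpow_mul]
          congr 2
          push_cast
          omega
        · rw [h0, zpow_one] at h1
          exact hgne h1
        · rw [h0] at h1
          have h2 : χ (g : F) ^ 2 = 1 := by exact_mod_cast h1
          apply hgne
          calc χ (g : F) = χ (g : F) * χ (g : F) ^ 2 := by rw [h2, mul_one]
            _ = χ (g : F) ^ 3 := by ring
            _ = 1 := hz3
      have h1 := hcube u hu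
      have h2 : (χ u - 1) * (1 + χ u + χ u ^ 2) = 0 := by
        linear_combination h1
      rcases mul_eq_zero.1 h2 with h3 | h3
      · exact absurd (sub_eq_zero.1 h3) hne
      · rw [h3]
        norm_num

end Pool.Agent.Q109.DC
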