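import Pool.Agent.Q274.DC.Stm

set_option autoImplicit false

namespace Pool.Agent.Q109.DC

open Pool.Agent.Q274.DC Finset

theorem sum : S_SUM := by
  classical
  intro F _ _ χ hχ t ht a ha q g g' hq
  have hfil : (Finset.univ : Finset (Finset (Fin (2 * t + 3)))).filter
      (fun J => J.card % 3 = t % 3) =
      Finset.powersetCard t (Finset.univ : Finset (Fin (2 * t + 3))) ∪
        Finset.powersetCard (t + 3) (Finset.univ : Finset (Fin (2 * t + 3))) := by
    ext J
    simp only [mem_filter, mem_univ, true_and, mem_union, mem_powersetCard, subset_univ]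
    have h1 := J.card_le_univ
    rw [Fintype.card_fin] at h1
    omega
  have hdis : Disjoint (Finset.powersetCard t (Finset.univ : Finset (Fin (2 * t + 3))))
      (Finset.powersetCard (t + 3) (Finset.univ : Finset (Fin (2 * t + 3)))) := by
    rw [Finset.disjoint_left]
    intro J h1 h2
    rw [mem_powersetCard] at h1 h2
    omega
  have hA : (∏ i, a i) ≠ 0 := Finset.prod_ne_zero_iff.2 fun i _ => ha i
  have hcube : ∀ v : F, v ≠ 0 → χ v ^ 3 = 1 := by
    intro v hv
    rw [← MulChar.pow_apply' χ (by norm_num), hχ, MulChar.one_apply (isUnit_iff_ne_zero.2 hv)]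
  have hdne : ∀ J : Finset (Fin (2 * t + 3)), dJ a J ≠ 0 := by
    intro J
    exact mul_ne_zero hA (Finset.prod_ne_zero_iff.2 fun i _ => ha i)
  have hcompl : ∀ J : Finset (Fin (2 * t + 3)), χ (dJ a Jᶜ) ^ 2 = χ (dJ a J) := by
    intro J
    have h1 : dJ a J * dJ a Jᶜ = (∏ i, a i) ^ 3 := by
      unfold dJ
      have h2 := Finset.prod_mul_prod_compl J a
      calc (∏ i, a i) * (∏ i ∈ J, a i) * ((∏ i, a i) * ∏ i ∈ Jᶜ, a i)
          = (∏ i, a i) ^ 2 * ((∏ i ∈ J, a i) * ∏ i ∈ Jᶜ, a i) := by ring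
        _ = (∏ i, a i) ^ 3 := by rw [h2]; ring
    have h3 : χ (dJ a J) * χ (dJ a Jᶜ) = 1 := by
      rw [← map_mul, h1, map_pow, hcube _ hA]
    have h4 := hcube _ (hdne Jᶜ)
    calc χ (dJ a Jᶜ) ^ 2 = χ (dJ a Jᶜ) ^ 2 * (χ (dJ a J) * χ (dJ a Jᶜ)) := by rw [h3, mul_one]
      _ = χ (dJ a J) * χ (dJ a Jᶜ) ^ 3 := by ring
      _ = χ (dJ a J) := by rw [h4, mul_one]
  have hre : ∑ J ∈ Finset.powersetCard (t + 3) (Finset.univ : Finset (Fin (2 * t + 3))),
      g ^ (2 * t + 3 - J.card) * g' ^ J.card * χ (dJ a J) ^ 2 =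
      ∑ J ∈ Finset.powersetCard t (Finset.univ : Finset (Fin (2 * t + 3))),
        g ^ t * g' ^ (t + 3) * χ (dJ a J) := by
    refine Finset.sum_bij' (fun J _ => Jᶜ) (fun J _ => Jᶜ) ?_ ?_ ?_ ?_ ?_
    · intro J hJ
      rw [mem_powersetCard] at hJ ⊢
      refine ⟨subset_univ _, ?_⟩
      rw [Finset.card_compl, Fintype.card_fin]
      omega
    · intro J hJ
      rw [mem_powersetCard] at hJ ⊢
      refine ⟨subset_univ _, ?_⟩
      rw [Finset.card_compl, Fintype.card_fin]
      omega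
    · intro J _
      exact compl_compl J
    · intro J _
      exact compl_compl J
    · intro J hJ
      rw [mem_powersetCard] at hJ
      have h1 := hcompl Jᶜ
      rw [compl_compl] at h1
      rw [hJ.2, h1]
      congr 3
      omega
  rw [hfil, Finset.sum_union hdis, hre, Finset.mul_sum, ← Finset.sum_add_distrib]
  refine Finset.sum_congr rfl fun J hJ => ?_
  rw [mem_powersetCard] at hJ
  rw [hJ.2, show 2 * t + 3 - t = t + 3 by omega, ← hq]
  ring

end Pool.Agent.Q109.DC
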